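import Pool.Agent.Helper25.LS.Defs

/-!
# Project LS, packet EG: a finite-dimensional subspace carries almost all of the energy of the tail
-/

set_option autoImplicit false

open Filter Topology Module

noncomputable section

namespace Pool.Agent.Helper16.LS

open Pool.Agent.Helper25.LS

/-- bounded real functions converge along ultrafilters -/
lemma exists_lim (U : Ultrafilter ℕ) (t : ℕ → ℝ) (M : ℝ) (h0 : ∀ j, 0 ≤ t j)
    (h1 : ∀ j, t j ≤ M) : ∃ l, 0 ≤ l ∧ Tendsto t (U : Filter ℕ) (𝓝 l) := by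
  have hc : IsCompact (Set.Icc (0 : ℝ) M) := isCompact_Icc
  have hle : ((U.map t : Ultrafilter ℝ) : Filter ℝ) ≤ 𝓟 (Set.Icc (0 : ℝ) M) := by
    rw [Filter.le_principal_iff]
    change t ⁻¹' (Set.Icc (0 : ℝ) M) ∈ (U : Filter ℕ)
    have : t ⁻¹' (Set.Icc (0 : ℝ) M) = Set.univ := by
      ext j
      simp [h0 j, h1 j]
    rw [this]
    exact Filter.univ_mem
  obtain ⟨l, hl, hl'⟩ := hc.ultrafilter_le_nhds (U.map t) hle
  exact ⟨l, hl.1, hl'⟩

section
variable {X : ℕ → Type} [∀ j, NormedAddCommGroup (X j)] [∀ j, NormedSpace ℂ (X j)]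
  {U : Ultrafilter ℕ} {Y : Type} [NormedAddCommGroup Y] [NormedSpace ℂ Y] {D : Ult X U Y}
  {H : Type} [NormedAddCommGroup H] [InnerProductSpace ℂ H] {Φ : Y ≃L[ℂ] H}

/-- the term of the energy -/
def trm (L : Lif X U Y D H Φ) (P : Rep X) (u : H) (j i : ℕ) : ℝ :=
  ‖P.f j (i + P.N) (L.σ u j)‖ ^ 2 + ‖L.τ u j (P.x j (i + P.N))‖ ^ 2

lemma trm_nonneg (L : Lif X U Y D H Φ) (P : Rep X) (u : H) (j i : ℕ) :
    0 ≤ trm L P u j i := by
  unfold trm
  positivity

lemma summable_tail (P : Rep X) (j : ℕ) : Summable (fun i => P.s j (i + P.N) ^ 2) :=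
  (summable_nat_add_iff (f := fun i => P.s j i ^ 2) P.N).2 (P.hs j)

lemma exists_bd (L : Lif X U Y D H Φ) (P : Rep X) (u : H) :
    ∃ K : ℝ, 0 ≤ K ∧ ∀ j i, trm L P u j i ≤ K * P.s j (i + P.N) ^ 2 := by
  obtain ⟨B, hB⟩ := L.bτ u
  refine ⟨‖Φ.symm u‖ ^ 2 + B ^ 2, by positivity, fun j i => ?_⟩
  have hs0 : 0 ≤ P.s j (i + P.N) := (norm_nonneg _).trans (P.hf j (i + P.N))
  have h1 : ‖P.f j (i + P.N) (L.σ u j)‖ ≤ P.s j (i + P.N) * ‖Φ.symm u‖ := by
    refine (ContinuousLinearMap.le_opNorm _ _).trans ?_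
    exact mul_le_mul (P.hf j _) (L.bσ u j) (norm_nonneg _) hs0
  have h2 : ‖L.τ u j (P.x j (i + P.N))‖ ≤ B * P.s j (i + P.N) := by
    refine (ContinuousLinearMap.le_opNorm _ _).trans ?_
    exact mul_le_mul (hB j) (P.hx j _) (norm_nonneg _) ((norm_nonneg _).trans (hB j))
  have h1' := pow_le_pow_left₀ (norm_nonneg _) h1 2
  have h2' := pow_le_pow_left₀ (norm_nonneg _) h2 2
  unfold trm
  nlinarith [h1', h2']

lemma summable_trm (L : Lif X U Y D H Φ) (P : Rep X) (u : H) (j : ℕ) :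
    Summable (trm L P u j) := by
  obtain ⟨K, hK, h⟩ := exists_bd L P u
  exact Summable.of_nonneg_of_le (trm_nonneg L P u j) (h j) ((summable_tail P j).mul_left K)

lemma exists_e (L : Lif X U Y D H Φ) (P : Rep X) (u : H) :
    ∃ l, 0 ≤ l ∧ Tendsto (fun j => ∑' i, trm L P u j i) (U : Filter ℕ) (𝓝 l) := by
  obtain ⟨K, hK, h⟩ := exists_bd L P u
  refine exists_lim U _ (K * (1 / 8)) (fun j => tsum_nonneg (trm_nonneg L P u j)) fun j => ?_
  calc ∑' i, trm L P u j i ≤ ∑' i, K * P.s j (i + P.N) ^ 2 :=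
        (summable_trm L P u j).tsum_le_tsum (h j) ((summable_tail P j).mul_left K)
    _ = K * ∑' i, P.s j (i + P.N) ^ 2 := tsum_mul_left
    _ ≤ K * (1 / 8) := mul_le_mul_of_nonneg_left (P.ht j) hK

end

/-- EG from SU, QB and PB -/
theorem eg (h1 : S_SU) (h2 : S_QB) (h3 : S_PB) : S_EG := by
  intro X _ _ U Y _ _ D H _ _ Φ L C P hΦ ε hε
  choose e he0 he using fun u : H => exists_e L P u
  set C2 : ℝ := max C 0 + 1 with hC2
  have hC0 : (0 : ℝ) ≤ max C 0 := le_max_right _ _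
  have key : ∀ (m : ℕ) (u : Fin m → H),
      Tendsto (fun j => ∑' i, ∑ k, trm L P (u k) j i) (U : Filter ℕ) (𝓝 (∑ k, e (u k))) := by
    intro m u
    have h := tendsto_finsetSum (Finset.univ : Finset (Fin m)) (fun k _ => he (u k))
    refine h.congr fun j => ?_
    exact (Summable.tsum_finsetSum (fun k _ => summable_trm L P (u k) j)).symm
  have hB : ∀ (m : ℕ) (u : Fin m → H), Orthonormal ℂ u →
      ∑ k, e (u k) ≤ (2 ^ 2 + C2 ^ 2) * (1 / 8) := by
    intro m u hu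
    refine le_of_tendsto (key m u) ?_
    have hq := h2 X U Y D H Φ L (max C 0) C2 hC0 (by rw [hC2]; linarith)
      (fun y => (hΦ y).2.trans
        (mul_le_mul_of_nonneg_right (le_max_left _ _) (norm_nonneg _))) m u hu
    have hp := h3 X U Y D H Φ L 2 (by norm_num) (fun y => (hΦ y).1) m u hu
    filter_upwards [hq, hp] with j hqj hpj
    have hle : ∀ i, ∑ k, trm L P (u k) j i ≤ (2 ^ 2 + C2 ^ 2) * P.s j (i + P.N) ^ 2 := by
      intro i
      have ha := hpj (P.f j (i + P.N))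
      have hb := hqj (P.x j (i + P.N))
      have ha' : ‖P.f j (i + P.N)‖ ^ 2 ≤ P.s j (i + P.N) ^ 2 :=
        pow_le_pow_left₀ (norm_nonneg _) (P.hf j _) 2
      have hb' : ‖P.x j (i + P.N)‖ ^ 2 ≤ P.s j (i + P.N) ^ 2 :=
        pow_le_pow_left₀ (norm_nonneg _) (P.hx j _) 2
      unfold trm
      rw [Finset.sum_add_distrib]
      nlinarith [ha, hb, ha', hb', sq_nonneg C2]
    have hsum : Summable (fun i => ∑ k, trm L P (u k) j i) :=
      summable_sum fun k _ => summable_trm L P (u k) j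
    calc ∑' i, ∑ k, trm L P (u k) j i
        ≤ ∑' i, (2 ^ 2 + C2 ^ 2) * P.s j (i + P.N) ^ 2 :=
          hsum.tsum_le_tsum hle ((summable_tail P j).mul_left _)
      _ = (2 ^ 2 + C2 ^ 2) * ∑' i, P.s j (i + P.N) ^ 2 := tsum_mul_left
      _ ≤ (2 ^ 2 + C2 ^ 2) * (1 / 8) :=
          mul_le_mul_of_nonneg_left (P.ht j) (by positivity)
  obtain ⟨E₀, hE₀, hE⟩ := h1 H e _ he0 hB (ε / 2) (half_pos hε)
  refine ⟨E₀, hE₀, fun m u hu hu0 => ?_⟩
  have h4 : ∑ k, e (u k) < ε := lt_of_le_of_lt (hE m u hu hu0) (half_lt_self hε)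
  filter_upwards [(key m u).eventually_lt_const h4] with j hj
  exact hj.le

end Pool.Agent.Helper16.LS
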